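import Pool.Agent.Run7.h148.E3.Iface

set_option autoImplicit false

/-!
# Transport of the vorticity by a planar solution of the Euler equations (piece VORT)
-/

open MeasureTheory Set Complex
open scoped Topology

namespace Run7.h209.E3

open Run7.h148.E3

/-- slices in the space variable -/
lemma slice2 {F : Type*} [NormedAddCommGroup F] [NormedSpace ℝ F] {f : ℝ → ℂ → F}
    {t : ℝ} {x : ℂ} (h : DifferentiableAt ℝ (fun z : ℝ × ℂ => f z.1 z.2) (t, x)) (e : ℂ) :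
    fderiv ℝ (f t) x e = fderiv ℝ (fun z : ℝ × ℂ => f z.1 z.2) (t, x) (0, e) := by
  have h1 : HasFDerivAt (fun y : ℂ => ((t, y) : ℝ × ℂ)) (ContinuousLinearMap.inr ℝ ℝ ℂ) x :=
    hasFDerivAt_prodMk_right t x
  have h2 : HasFDerivAt (f t)
      (fderiv ℝ (fun z : ℝ × ℂ => f z.1 z.2) (t, x) ∘L ContinuousLinearMap.inr ℝ ℝ ℂ) x :=
    h.hasFDerivAt.comp x h1
  rw [h2.fderiv]
  rfl

/-- The derivative in the space variable is continuous on `[0, ∞) × ℂ`. -/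
lemma cont_slice {f : ℝ → ℂ → ℂ}
    (h : ContDiffOn ℝ 1 (fun q : ℝ × ℂ => f q.1 q.2) (Ici 0 ×ˢ univ)) (e : ℂ) :
    ContinuousOn (fun z : ℝ × ℂ => fderiv ℝ (f z.1) z.2 e) (Ici 0 ×ˢ univ) := by
  have hu : UniqueDiffOn ℝ (Ici (0:ℝ) ×ˢ (univ : Set ℂ)) :=
    (uniqueDiffOn_Ici 0).prod uniqueDiffOn_univ
  set U : ℝ × ℂ → ℂ := fun z => f z.1 z.2 with hU
  have hc : ContinuousOn (fun z => fderivWithin ℝ U (Ici 0 ×ˢ univ) z (0, e))
      (Ici 0 ×ˢ univ) :=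
    (h.continuousOn_fderivWithin hu le_rfl).clm_apply
      (continuousOn_const (c := ((0, e) : ℝ × ℂ)))
  refine hc.congr fun z hz => ?_
  obtain ⟨t, x⟩ := z
  have hd : HasFDerivWithinAt U (fderivWithin ℝ U (Ici 0 ×ˢ univ) (t, x))
      (Ici 0 ×ˢ univ) (t, x) :=
    ((h.differentiableOn one_ne_zero) (t, x) hz).hasFDerivWithinAt
  have e1 : HasFDerivWithinAt (fun y : ℂ => ((t, y) : ℝ × ℂ)) (ContinuousLinearMap.inr ℝ ℝ ℂ)
      univ x := (hasFDerivAt_prodMk_right t x).hasFDerivWithinAt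
  have h2 := HasFDerivWithinAt.comp (g := U) (f := fun y : ℂ => ((t, y) : ℝ × ℂ)) x hd e1
    (fun y _ => ⟨hz.1, mem_univ _⟩)
  have h3 : fderiv ℝ (f t) x
      = fderivWithin ℝ U (Ici 0 ×ˢ univ) (t, x) ∘L ContinuousLinearMap.inr ℝ ℝ ℂ :=
    (hasFDerivWithinAt_univ.1 h2).fderiv
  show fderiv ℝ (f t) x e = _
  rw [h3]
  rfl

/-- open space-time -/
def Om2 : Set (ℝ × ℂ) := Ioi 0 ×ˢ univ

lemma isOpen_Om2 : IsOpen Om2 := isOpen_Ioi.prod isOpen_univ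

lemma mem_Om2 {t : ℝ} (ht : 0 < t) (x : ℂ) : (t, x) ∈ Om2 := ⟨ht, mem_univ _⟩

section

variable {v : ℝ → ℂ → ℂ} {P : ℝ → ℂ → ℝ}

lemma du2 (h : PSol v P) {z : ℝ × ℂ} (hz : z ∈ Om2) :
    DifferentiableAt ℝ (fun z : ℝ × ℂ => v z.1 z.2) z :=
  (h.v2.contDiffAt (isOpen_Om2.mem_nhds hz)).differentiableAt (by norm_num)

lemma dp2 (h : PSol v P) {z : ℝ × ℂ} (hz : z ∈ Om2) :
    DifferentiableAt ℝ (fun z : ℝ × ℂ => P z.1 z.2) z :=
  (h.p2.contDiffAt (isOpen_Om2.mem_nhds hz)).differentiableAt (by norm_num)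

lemma ddu2 (h : PSol v P) {z : ℝ × ℂ} (hz : z ∈ Om2) :
    DifferentiableAt ℝ (fderiv ℝ (fun z : ℝ × ℂ => v z.1 z.2)) z :=
  ((h.v2.fderiv_of_isOpen isOpen_Om2 (m := 1) (by norm_num)).contDiffAt
    (isOpen_Om2.mem_nhds hz)).differentiableAt (by norm_num)

lemma ddp2 (h : PSol v P) {z : ℝ × ℂ} (hz : z ∈ Om2) :
    DifferentiableAt ℝ (fderiv ℝ (fun z : ℝ × ℂ => P z.1 z.2)) z :=
  ((h.p2.fderiv_of_isOpen isOpen_Om2 (m := 1) (by norm_num)).contDiffAt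
    (isOpen_Om2.mem_nhds hz)).differentiableAt (by norm_num)

lemma symm_v2 (h : PSol v P) {z : ℝ × ℂ} (hz : z ∈ Om2) (a b : ℝ × ℂ) :
    fderiv ℝ (fderiv ℝ (fun z : ℝ × ℂ => v z.1 z.2)) z a b
      = fderiv ℝ (fderiv ℝ (fun z : ℝ × ℂ => v z.1 z.2)) z b a :=
  ((h.v2.contDiffAt (isOpen_Om2.mem_nhds hz)).isSymmSndFDerivAt (by simp)) a b

lemma symm_p2 (h : PSol v P) {z : ℝ × ℂ} (hz : z ∈ Om2) (a b : ℝ × ℂ) :
    fderiv ℝ (fderiv ℝ (fun z : ℝ × ℂ => P z.1 z.2)) z a b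
      = fderiv ℝ (fderiv ℝ (fun z : ℝ × ℂ => P z.1 z.2)) z b a :=
  ((h.p2.contDiffAt (isOpen_Om2.mem_nhds hz)).isSymmSndFDerivAt (by simp)) a b

/-- The momentum equation on space-time. -/
lemma mom2 (h : PSol v P) {z : ℝ × ℂ} (hz : z ∈ Om2) :
    fderiv ℝ (fun z : ℝ × ℂ => v z.1 z.2) z (1, v z.1 z.2)
      = -⟨fderiv ℝ (fun z : ℝ × ℂ => P z.1 z.2) z (0, 1),
          fderiv ℝ (fun z : ℝ × ℂ => P z.1 z.2) z (0, I)⟩ := by
  obtain ⟨t, x⟩ := z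
  have ht : 0 < t := hz.1
  have h1 := h.mom t ht x
  rw [slice2 (f := v) (du2 h hz), slice2 (f := P) (dp2 h hz), slice2 (f := P) (dp2 h hz)] at h1
  have h2 : HasDerivAt (fun s => v s x)
      (fderiv ℝ (fun z : ℝ × ℂ => v z.1 z.2) (t, x) (1, 0)) t :=
    HasFDerivAt.comp_hasDerivAt (l := fun z : ℝ × ℂ => v z.1 z.2)
      (f := fun s : ℝ => ((s, x) : ℝ × ℂ)) t (du2 h hz).hasFDerivAt
      ((hasDerivAt_id t).prodMk (hasDerivAt_const t x))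
  have h3 := h2.unique h1
  have h4 : ((1, v t x) : ℝ × ℂ) = (1, 0) + (0, v t x) := by simp
  simp only
  rw [h4, map_add, h3]
  ring

/-- The differentiated momentum equation, tested with a linear form. -/
lemma mom2' (h : PSol v P) (L : ℂ →L[ℝ] ℝ) (e : ℂ)
    (hm : ∀ z ∈ Om2, L (fderiv ℝ (fun z : ℝ × ℂ => v z.1 z.2) z (1, v z.1 z.2))
      = -fderiv ℝ (fun z : ℝ × ℂ => P z.1 z.2) z (0, e)) {z : ℝ × ℂ} (hz : z ∈ Om2)
    (w : ℝ × ℂ) :
    L (fderiv ℝ (fderiv ℝ (fun z : ℝ × ℂ => v z.1 z.2)) z w (1, v z.1 z.2)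
      + fderiv ℝ (fun z : ℝ × ℂ => v z.1 z.2) z
          (0, fderiv ℝ (fun z : ℝ × ℂ => v z.1 z.2) z w))
      = -fderiv ℝ (fderiv ℝ (fun z : ℝ × ℂ => P z.1 z.2)) z w (0, e) := by
  set U : ℝ × ℂ → ℂ := fun z => v z.1 z.2 with hU
  set Q : ℝ × ℂ → ℝ := fun z => P z.1 z.2 with hQ
  have hL : HasFDerivAt (fun z => fderiv ℝ U z (1, U z))
      ((fderiv ℝ U z) ∘L ((0 : ℝ × ℂ →L[ℝ] ℝ).prod (fderiv ℝ U z))
        + (fderiv ℝ (fderiv ℝ U) z).flip (1, U z)) z := by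
    have h1 := (ddu2 h hz).hasFDerivAt
    have h2 : HasFDerivAt (fun z => ((1 : ℝ), U z)) ((0 : ℝ × ℂ →L[ℝ] ℝ).prod (fderiv ℝ U z)) z :=
      (hasFDerivAt_const (1 : ℝ) z).prodMk (du2 h hz).hasFDerivAt
    exact h1.clm_apply h2
  have hLL := (L.hasFDerivAt (x := fderiv ℝ U z (1, U z))).comp z hL
  have hR : HasFDerivAt (fun z => -fderiv ℝ Q z (0, e))
      (-((fderiv ℝ (fderiv ℝ Q) z).flip (0, e))) z := by
    have h1 := (ddp2 h hz).hasFDerivAt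
    have h2 := h1.clm_apply (hasFDerivAt_const ((0, e) : ℝ × ℂ) z)
    refine h2.neg.congr_fderiv ?_
    ext w <;> simp [hQ]
  have hev : (L ∘ fun z => fderiv ℝ U z (1, U z)) =ᶠ[𝓝 z] (fun z => -fderiv ℝ Q z (0, e)) := by
    filter_upwards [isOpen_Om2.mem_nhds hz] with z' hz'
    exact hm z' hz'
  have heq := (hLL.congr_of_eventuallyEq hev.symm).unique hR
  have := congrArg (fun L : ℝ × ℂ →L[ℝ] ℝ => L w) heq
  simp only [add_apply, ContinuousLinearMap.comp_apply, ContinuousLinearMap.prod_apply,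
    zero_apply, ContinuousLinearMap.flip_apply, neg_apply] at this
  rw [← this, add_comm]

lemma vort_trans (h : PSol v P) {ξ : ℝ → ℂ}
    (hξ : ∀ t, 0 ≤ t → HasDerivWithinAt ξ (v t (ξ t)) (Ici 0) t) {t : ℝ} (ht : 0 < t) :
    HasDerivAt (fun t => om (fun t z => fderiv ℝ (v t) z) t (ξ t)) 0 t := by
  set U : ℝ × ℂ → ℂ := fun z => v z.1 z.2 with hU
  set Q : ℝ × ℂ → ℝ := fun z => P z.1 z.2 with hQ
  have hz : (t, ξ t) ∈ Om2 := mem_Om2 ht _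
  have hξt : HasDerivAt ξ (v t (ξ t)) t := (hξ t ht.le).hasDerivAt (Ici_mem_nhds ht)
  have hZ : HasDerivAt (fun t => ((t, ξ t) : ℝ × ℂ)) (1, v t (ξ t)) t :=
    (hasDerivAt_id t).prodMk hξt
  have h1 : HasDerivAt (fun t => fderiv ℝ U (t, ξ t))
      (fderiv ℝ (fderiv ℝ U) (t, ξ t) (1, v t (ξ t))) t :=
    (ddu2 h hz).hasFDerivAt.comp_hasDerivAt t hZ
  have h2 : ∀ e : ℂ, HasDerivAt (fun t => fderiv ℝ U (t, ξ t) (0, e))
      (fderiv ℝ (fderiv ℝ U) (t, ξ t) (1, v t (ξ t)) (0, e)) t := by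
    intro e
    have := h1.clm_apply (hasDerivAt_const t ((0, e) : ℝ × ℂ))
    simpa using this
  have h3 : HasDerivAt (fun t => (fderiv ℝ U (t, ξ t) (0, 1)).im - (fderiv ℝ U (t, ξ t) (0, I)).re)
      ((fderiv ℝ (fderiv ℝ U) (t, ξ t) (1, v t (ξ t)) (0, 1)).im
        - (fderiv ℝ (fderiv ℝ U) (t, ξ t) (1, v t (ξ t)) (0, I)).re) t :=
    (imCLM.hasFDerivAt.comp_hasDerivAt t (h2 1)).sub (reCLM.hasFDerivAt.comp_hasDerivAt t (h2 I))
  have hev : (fun t => om (fun t z => fderiv ℝ (v t) z) t (ξ t)) =ᶠ[𝓝 t]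
      (fun t => (fderiv ℝ U (t, ξ t) (0, 1)).im - (fderiv ℝ U (t, ξ t) (0, I)).re) := by
    filter_upwards [Ioi_mem_nhds ht] with s hs
    have hs' : (s, ξ s) ∈ Om2 := mem_Om2 hs _
    simp only [om]
    rw [slice2 (f := v) (du2 h hs'), slice2 (f := v) (du2 h hs')]
  refine (h3.congr_of_eventuallyEq hev).congr_deriv ?_
  -- the two components of the momentum equation
  have m1 := mom2' h reCLM 1 (fun z hz => by rw [mom2 h hz]; simp) hz (0, I)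
  have m2 := mom2' h imCLM I (fun z hz => by rw [mom2 h hz]; simp) hz (0, 1)
  rw [← hU, ← hQ] at m1 m2
  rw [symm_v2 h hz, symm_v2 h hz (1, v t (ξ t)) (0, I), ← hU]
  have m3 := symm_p2 h hz (0, 1) (0, I)
  rw [← hQ] at m3
  simp only [map_add, reCLM_apply, imCLM_apply] at m1 m2
  rw [m3] at m2
  set A : ℂ := fderiv ℝ U (t, ξ t) (0, 1) with hA
  set B : ℂ := fderiv ℝ U (t, ξ t) (0, I) with hB
  have hlin : ∀ c : ℂ, fderiv ℝ U (t, ξ t) (0, c) = c.re • A + c.im • B := by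
    intro c
    have e1 : ((0, c) : ℝ × ℂ) = c.re • ((0, 1) : ℝ × ℂ) + c.im • ((0, I) : ℝ × ℂ) := by
      ext <;> simp
    rw [e1, map_add, map_smul, map_smul]
  have htr : A.re + B.im = 0 := by
    have := h.tr t ht.le (ξ t)
    rw [slice2 (f := v) (du2 h hz), slice2 (f := v) (du2 h hz)] at this
    exact this
  rw [hlin] at m1 m2
  simp only [add_re, add_im, real_smul, re_ofReal_mul, im_ofReal_mul] at m1 m2
  have k1 : B.im = -A.re := by linarith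
  rw [k1] at m1 m2
  have g1 : (fderiv ℝ (fderiv ℝ U) (t, ξ t) (0, 1) (1, v t (ξ t))).im
    = -(fderiv ℝ (fderiv ℝ Q) (t, ξ t) (0, I) (0, 1)) - (A.re * A.im + A.im * -A.re) := by
    linarith
  have g2 : (fderiv ℝ (fderiv ℝ U) (t, ξ t) (0, I) (1, v t (ξ t))).re
    = -(fderiv ℝ (fderiv ℝ Q) (t, ξ t) (0, I) (0, 1)) - (B.re * A.re + -A.re * B.re) := by
    linarith
  rw [g1, g2]
  ring

end

/-- Piece VORT. -/
theorem t_VORT : St_VORT := by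
  intro v P h ξ hξ t ht
  rcases ht.eq_or_lt with rfl | ht
  · rfl
  have hc : ContinuousOn (fun t => om (fun t z => fderiv ℝ (v t) z) t (ξ t)) (Icc 0 t) := by
    have hcξ : ContinuousOn ξ (Icc 0 t) := fun s hs =>
      ((hξ s hs.1).continuousWithinAt).mono Icc_subset_Ici_self
    have hc1 : ∀ e : ℂ, ContinuousOn (fun s => fderiv ℝ (v s) (ξ s) e) (Icc 0 t) := fun e =>
      (cont_slice h.v1 e).comp (t := Ici 0 ×ˢ univ) (f := fun s : ℝ => ((s, ξ s) : ℝ × ℂ))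
        (continuousOn_id.prodMk hcξ) (fun s hs => ⟨hs.1, mem_univ _⟩)
    exact (continuous_im.comp_continuousOn (hc1 1)).sub (continuous_re.comp_continuousOn (hc1 I))
  obtain ⟨c, hc0, hc1⟩ := exists_hasDerivAt_eq_slope
    (fun t => om (fun t z => fderiv ℝ (v t) z) t (ξ t)) (fun _ => 0) ht hc
    (fun s hs => vort_trans h hξ hs.1)
  have h1 : t - 0 ≠ 0 := by simpa using ht.ne'
  have h2 := (div_eq_zero_iff.1 hc1.symm).resolve_right h1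
  exact sub_eq_zero.1 h2

end Run7.h209.E3
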